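import Pool.Agent.Helper76.CV.Goals

/-!
# Project CV (MP_eec6f5_gt), packet CV-WRA: the isometry of the moving frame
-/

set_option autoImplicit false

namespace Pool.Agent.Helper37.CV.WRA

open Pool.Agent.Helper76.CV

theorem inner_sum {n : ℕ} (x y : E n) : inner ℝ x y = ∑ i, x i * y i := by
  rw [PiLp.inner_apply]
  refine Finset.sum_congr rfl fun i _ => ?_
  rw [real_inner_eq_re_inner]
  simp [mul_comm]

theorem inner_cons (r : ℕ) (a b a' b' : ℝ) (y y' : Fin (r + 2) → ℝ) :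
    inner ℝ (WithLp.toLp 2 (Fin.cons a (Fin.cons b y)) : E (r + 4))
      (WithLp.toLp 2 (Fin.cons a' (Fin.cons b' y'))) = a * a' + b * b' + ∑ i, y i * y' i := by
  rw [inner_sum, Fin.sum_univ_succ, Fin.sum_univ_succ]
  simp only [Fin.cons_zero, Fin.cons_succ]
  ring

theorem inner_succ (r : ℕ) (η η' : E (r + 3)) :
    inner ℝ η η' = η 0 * η' 0 + ∑ i : Fin (r + 2), η i.succ * η' i.succ := by
  rw [inner_sum, Fin.sum_univ_succ]

theorem a (r : ℕ) (φ : ℝ) (η η' : E (r + 3)) (o o' : ℝ) :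
    inner ℝ (Rf φ η o) (Rf φ η' o') = inner ℝ η η' + o * o' := by
  rw [Rf, Rf, inner_cons, inner_succ r η η']
  have h := Real.sin_sq_add_cos_sq φ
  linear_combination (η 0 * η' 0 + o * o') * h

theorem b (r : ℕ) (φ : ℝ) (η : E (r + 3)) (o : ℝ) : ‖Rf φ η o‖ ^ 2 = ‖η‖ ^ 2 + o ^ 2 := by
  rw [← real_inner_self_eq_norm_sq, a, real_inner_self_eq_norm_sq]
  ring

theorem c (r : ℕ) (x : ℝ × E (r + 3)) (hx : ‖x.2‖ ≤ 1) : ‖Q x‖ ≤ 9 / 4 := by
  have h1 : ‖Q x‖ ^ 2 = ‖x.2‖ ^ 2 + 5 / 2 * x.2 0 + 25 / 16 := by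
    rw [← real_inner_self_eq_norm_sq, ← real_inner_self_eq_norm_sq, Q, inner_cons, inner_succ r x.2 x.2]
    have h := Real.sin_sq_add_cos_sq (4 / 5 * x.1)
    linear_combination (5 / 4 + x.2 0) ^ 2 * h
  have h2 : ‖x.2‖ ^ 2 ≤ 1 := by
    have := norm_nonneg x.2
    nlinarith
  have h3 : x.2 0 ≤ 1 := by
    have h4 : ‖x.2‖ ^ 2 = ∑ i, x.2 i * x.2 i := by
      rw [← real_inner_self_eq_norm_sq, inner_sum]
    have h5 : x.2 0 * x.2 0 ≤ ∑ i, x.2 i * x.2 i :=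
      Finset.single_le_sum (f := fun i => x.2 i * x.2 i) (fun i _ => mul_self_nonneg _)
        (Finset.mem_univ 0)
    nlinarith
  have h6 : ‖Q x‖ ^ 2 ≤ (9 / 4) ^ 2 := by
    rw [h1]
    linarith
  exact (pow_le_pow_iff_left₀ (norm_nonneg _) (by norm_num) two_ne_zero).1 h6

theorem t : WRA := ⟨a, b, c⟩

end Pool.Agent.Helper37.CV.WRA
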